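import Pool.Agent.helper91.RB.Spec5

set_option autoImplicit false

/-! Row rb:IDM (helper9): the two indices agree. -/

namespace Pool.Agent.RB

open NumberField IsDedekindDomain Module
open scoped nonZeroDivisors Real Classical IsMulCommutative

theorem IDM_rel {A B : Type} [AddCommGroup A] [AddCommGroup B] (Φ : A →+ B) (M D : AddSubgroup A)
    (N E : AddSubgroup B) (hMD : M ≤ D) (hinj : ∀ a ∈ D, Φ a = 0 → a = 0) (hN : M.map Φ = N)
    (hE : D.map Φ = E) : N.relIndex E = M.relIndex D := by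
  have hinj' : Function.Injective (Φ.comp D.subtype) := by
    rw [injective_iff_map_eq_zero]
    intro a ha
    exact Subtype.ext (hinj a.1 a.2 ha)
  have h1 : (M.addSubgroupOf D).map (Φ.comp D.subtype) = N := by
    rw [← hN, ← AddSubgroup.map_map, AddSubgroup.addSubgroupOf_map_subtype, inf_eq_left.2 hMD]
  have h2 : (⊤ : AddSubgroup D).map (Φ.comp D.subtype) = E := by
    rw [← hE, ← AddSubgroup.map_map, ← AddMonoidHom.range_eq_map, AddSubgroup.range_subtype]
  rw [← h1, ← h2, AddSubgroup.relIndex_map_map_of_injective _ _ hinj', AddSubgroup.relIndex_top_right]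
  rfl

theorem IDM_bD_add {F K H : Type} [Field F] [NumberField F] [Field K] [NumberField K] [Field H]
    [NumberField H] [Algebra F K] [Algebra K H] [Algebra F H] [IsScalarTower F K H]
    [IsAbelianGalois F K] (w : HOS H) (D D' : Dv K) : bD F w (D + D') = bD F w D + bD F w D' := by
  unfold bD
  rw [← Finset.sum_add_distrib]
  refine Finset.sum_congr rfl fun τ _ => ?_
  rw [Finsupp.add_apply, MonoidAlgebra.single_add]

theorem IDM (hORD : ORD_stmt) (hBOR : BOR_stmt) (hDVE : DVE_stmt) : IDM_stmt := by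
  intro F K H _ _ _ _ _ _ _ _ _ _ _ _ r w hw hinj c hc T hMD N hN
  obtain ⟨h1, h2, h3⟩ := hDVE F K H r w hw hinj c hc
  obtain ⟨hfin, -⟩ := hORD K
  let Φ : Dv K →+ (Fin r → MonoidAlgebra ℤ (H ≃ₐ[F] H)) :=
    AddMonoidHom.mk' (fun D j => bD F (w j) D) (fun D D' => by
      funext j
      exact IDM_bD_add (w j) D D')
  have hΦ : ∀ D j, Φ D j = bD F (w j) D := fun D j => rfl
  refine IDM_rel Φ _ _ _ _ hMD ?_ ?_ ?_
  · intro D hD h0
    exact h3 D hD fun j => congrFun h0 j
  · ext y
    rw [hN]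
    constructor
    · rintro ⟨D, ⟨x, hx, hDx⟩, rfl⟩
      exact ⟨x, hx, fun j => hBOR F K H (w j) (hw j) D x x.ne_zero hDx⟩
    · rintro ⟨x, hx, hy⟩
      let D : Dv K := Finsupp.ofSupportFinite (fun P => ord P (x : K)) (hfin x x.ne_zero)
      have hD : ∀ P, D P = ord P (x : K) := fun P => rfl
      refine ⟨D, ⟨x, hx, hD⟩, ?_⟩
      funext j
      rw [hΦ, hBOR F K H (w j) (hw j) D x x.ne_zero hD, hy j]
  · ext y
    rw [AddSubgroup.mem_pi]
    constructor
    · rintro ⟨D, hD, rfl⟩ j _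
      exact h1 D hD j
    · intro hy
      obtain ⟨D, hD, hDy⟩ := h2 y (fun j => hy j (Set.mem_univ j))
      exact ⟨D, hD, funext hDy⟩

end Pool.Agent.RB
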