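import Pool.Agent.helper24.RB.Spec
import Pool.Agent.helper58.LE.HHE

set_option autoImplicit false

namespace Pool.Agent.LE

open Pool.Agent.helper58.DC Pool.Agent.DI Pool.Agent.GR Pool.Agent.OB Pool.Agent.DR Pool.Agent.FI Pool.Agent.FI3 Pool.Agent.FI4 Pool.Agent.FI4C

/-- **HRR**: bounded rank and a regular orbit are hereditary. -/
theorem HRR : HRR_stmt := by
  intro p r _
  constructor
  · rintro G _ _ D T N _ hDN _ _ _ ⟨h, u, hu⟩
    refine ⟨le_trans ?_ h, ⟨u, hDN hu.1⟩, HHE_regS hDN hu (hDN hu.1)⟩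
    refine Set.ncard_le_ncard_of_injOn (fun v : N => (v : G)) ?_ ?_ (Set.toFinite _)
    · rintro v ⟨h1, h2⟩
      refine ⟨Subgroup.mem_subgroupOf.1 h1, ?_⟩
      have h3 := congrArg Subtype.val h2
      simpa using h3
    · intro v _ w _ hvw
      exact Subtype.ext hvw
  · rintro G _ _ D T g _ _ _ ⟨h, u, hu⟩
    refine ⟨le_trans ?_ h, g * u * g⁻¹, HHE_regC g hu⟩
    refine Set.ncard_le_ncard_of_injOn (fun v : G => g⁻¹ * v * g) ?_ ?_ (Set.toFinite _)
    · rintro v ⟨h1, h2⟩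
      refine ⟨mem_cjS.1 h1, ?_⟩
      have h3 : g⁻¹ * v * g = g⁻¹ * v * (g⁻¹)⁻¹ := by rw [inv_inv]
      rw [h3, conj_pow, h2]
      group
    · intro v _ w _ hvw
      have h3 : g⁻¹ * v * g = g⁻¹ * w * g := hvw
      exact mul_left_cancel (mul_right_cancel h3)

end Pool.Agent.LE
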