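import Pool.Agent.helper91.RB.Spec3

set_option autoImplicit false

/-! Row rb:IDX (helper9): the index of the unit lattice. -/

namespace Pool.Agent.RB

open NumberField IsDedekindDomain Module
open scoped nonZeroDivisors Real Classical

theorem IDX_nm {k : Type} [Field k] [NumberField k] (q : HOS k) : 2 ≤ nm q := by
  unfold nm
  have h0 : Ideal.absNorm q.asIdeal ≠ 0 := by
    rw [ne_eq, Ideal.absNorm_eq_zero_iff]
    exact q.ne_bot
  have h1 : Ideal.absNorm q.asIdeal ≠ 1 := by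
    rw [ne_eq, Ideal.absNorm_eq_one_iff]
    exact q.isPrime.ne_top
  omega

theorem IDX_ty {k : Type} (K : Type) [Field k] [NumberField k] [Field K] [NumberField K]
    [Algebra k K] (q : HOS k) : ty K q ≤ 1 := by
  unfold ty
  split_ifs <;> norm_num

theorem IDX (hIDB : IDB_stmt) (hIDA : IDA_stmt) (hAMB : AMB_stmt) : IDX_stmt := by
  intro k K _ _ _ _ _ _ _ _ c hc1 hck W T hT hWT hζ
  obtain ⟨hBD, hdB⟩ := hIDB k K c hc1 hck W
  have hdA := hIDA k K c hc1 hck W T hT hWT hζ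
  have hamb := hAMB k K c hc1 hck
  have hAB : dM c W {P : HOS K | P.under (𝓞 k) ∈ T} ≤ dM c W ∅ := by
    rintro D ⟨x, ⟨h1, h2, _⟩, h4⟩
    exact ⟨x, ⟨h1, h2, fun P hP => absurd hP (Set.notMem_empty P)⟩, h4⟩
  have hmul := AddSubgroup.relIndex_mul_relIndex _ _ _ hAB hBD
  set a := (dM c W {P : HOS K | P.under (𝓞 k) ∈ T}).relIndex (dM c W ∅) with ha
  set b := (dM c W ∅).relIndex (DV c W) with hb
  set d := (dM c W {P : HOS K | P.under (𝓞 k) ∈ T}).relIndex (DV c W) with hd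
  set n := (Pr K ⊔ Inv c).index with hn
  set R0 : ℤ := ∏ q ∈ T, ((nm q : ℤ) - ty K q) with hR
  have hR0 : R0 ≠ 0 := by
    rw [hR, Finset.prod_ne_zero_iff]
    intro q _
    have h1 := IDX_nm q
    have h2 := IDX_ty K q
    omega
  have hhK : classNumber K ≠ 0 := classNumber_ne_zero K
  have hn0 : n ≠ 0 := by
    intro h
    rw [h] at hamb
    simp only [zero_mul] at hamb
    omega
  have hb0 : b ≠ 0 := by
    intro h
    rw [h, zero_dvd_iff] at hdB
    exact hn0 hdB
  have ha0 : a ≠ 0 := by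
    intro h
    rw [h, Nat.cast_zero, zero_mul, zero_dvd_iff] at hdA
    exact hR0 hdA
  refine ⟨hAB.trans hBD, ?_, ?_⟩
  · rw [← hmul]
    exact mul_ne_zero ha0 hb0
  · obtain ⟨x, hx⟩ := hdA
    obtain ⟨y, hy⟩ := hdB
    refine ⟨x * y, ?_⟩
    have h3 : ((n * 2 ^ {q : HOS k | ty K q = 0}.ncard * classNumber k *
      IsCMField.indexRealUnits K : ℕ) : ℤ) = ((2 * classNumber K : ℕ) : ℤ) := by
      rw [hamb]
    push_cast at h3
    rw [← h3, hx, ← hmul, hy]
    push_cast
    ring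

end Pool.Agent.RB
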