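import Pool.Agent.helper91.RB.Spec5

set_option autoImplicit false

/-! Row rb:INJ (helper9): injectivity. -/

namespace Pool.Agent.RB

open NumberField IsDedekindDomain Module
open scoped nonZeroDivisors Real Classical IsMulCommutative

theorem INJ_pow {K : Type} [Field K] [NumberField K] (P : HOS K) {x : K} (hx : x ≠ 0) (n : ℕ) :
    ord P (x ^ n) = n * ord P x := by
  induction n with
  | zero => simp [ord_one]
  | succ n ih =>
    rw [pow_succ, ord_mul P (pow_ne_zero n hx) hx, ih]
    push_cast
    ring

/-- a unit of absolute value one everywhere, congruent to one modulo `T`, is one -/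
theorem INJ_tor {F H : Type} [Field F] [NumberField F] [Field H] [NumberField H] [Algebra F H]
    [IsAbelianGalois F H] [IsCMField H] (hORD : ORD_stmt) {r : ℕ} (D : RData F H r) (x : Hˣ)
    (hx : x ∈ Ut F H (D.T : Set (HOS F)) (Set.range D.v)) (hord : ∀ P : HOS H, ord P (x : H) = 0)
    (habs : ∀ w : InfinitePlace H, w (x : H) = 1) : x = 1 := by
  obtain ⟨-, -, -, hunit, -⟩ := hORD H
  obtain ⟨u, hu⟩ := hunit x x.ne_zero hord
  have htor : u ∈ Units.torsion H := by
    rw [Units.mem_torsion]
    intro w
    rw [hu]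
    exact habs w
  have h1 : u = 1 := by
    refine D.htor u htor fun P hP => ?_
    rw [hu]
    exact hx.1 P hP
  apply Units.ext
  rw [← hu, h1]
  simp

theorem INJ (hORD : ORD_stmt) (hSPL : SPL_stmt) (hORZ : ORZ_stmt) : INJ_stmt := by
  intro F H _ _ _ _ _ _ _ r D
  obtain ⟨-, -, hval, hunit, -⟩ := hORD H
  constructor
  · intro x hx hxc h0
    refine INJ_tor hORD D x hx ?_ ?_
    · intro P
      by_cases hP : P.under (𝓞 F) ∈ Set.range D.v
      · obtain ⟨j, hj⟩ := hP
        have hs : {P : HOS H | P.under (𝓞 F) = (D.w j).under (𝓞 F)}.ncard = finrank F H := by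
          rw [D.hw j]
          exact D.hvs j
        obtain ⟨-, htr, -⟩ := hSPL F H (D.w j) hs
        obtain ⟨σ, hσ⟩ := htr P (by rw [D.hw j, hj])
        obtain ⟨-, -, -, -, hco⟩ := hORZ F H (D.w j)
        rw [← hσ, ← hco (x : H) σ, h0 j]
        simp
      · exact (hval x P x.ne_zero).2 (hx.2 P hP)
    · intro w
      have h1 : w.embedding ((x : H) * D.c x) = ((‖w.embedding (x : H)‖ ^ 2 : ℝ) : ℂ) := by
        rw [map_mul, D.hc, IsCMField.complexEmbedding_complexConj, Complex.mul_conj,
          Complex.normSq_eq_norm_sq]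
      rw [hxc, map_one] at h1
      have h2 : ‖w.embedding (x : H)‖ ^ 2 = 1 := by exact_mod_cast h1.symm
      have h4 := norm_nonneg (w.embedding (x : H))
      rw [← InfinitePlace.norm_embedding_eq w (x : H)]
      nlinarith
  · intro x hx n hn hxn
    have hxn' : (x : H) ^ n = 1 := by
      rw [← Units.val_pow_eq_pow_val, hxn, Units.val_one]
    refine INJ_tor hORD D x hx ?_ ?_
    · intro P
      have h1 := INJ_pow P x.ne_zero n
      rw [hxn', ord_one] at h1
      rcases mul_eq_zero.1 h1.symm with h2 | h2
      · exact absurd (by exact_mod_cast h2) hn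
      · exact h2
    · intro w
      have h1 : (w (x : H)) ^ n = 1 := by
        rw [← map_pow, hxn', map_one]
      exact (pow_eq_one_iff_of_nonneg (apply_nonneg w _) hn).1 h1

end Pool.Agent.RB
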