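import Pool.Agent.helper91.RB.Spec3

set_option autoImplicit false

/-! Row rb:KRN (helper9): the kernel of the divisor map. -/

namespace Pool.Agent.RB

open NumberField IsDedekindDomain Module
open scoped nonZeroDivisors Real Classical

theorem KRN (hORD : ORD_stmt) (hCCJ : CCJ_stmt) : KRN_stmt := by
  intro k K _ _ _ _ _ _ _ _ c hc1 hck
  obtain ⟨-, -, hconj, -⟩ := hCCJ k K c hc1 hck
  obtain ⟨-, -, -, hunit, -⟩ := hORD K
  have key : ∀ (φ : K →+* ℂ) (x : K), φ (x * c x) = ((‖φ x‖ ^ 2 : ℝ) : ℂ) := by
    intro φ x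
    rw [map_mul, hconj, Complex.mul_conj, Complex.normSq_eq_norm_sq]
  constructor
  · intro x hx hord
    have hx0 : x ≠ 0 := by
      rintro rfl
      rw [zero_mul] at hx
      exact zero_ne_one hx
    obtain ⟨u, hu⟩ := hunit x hx0 hord
    refine ⟨u, ?_, hu⟩
    rw [Units.mem_torsion]
    intro w
    have h1 := key w.embedding x
    rw [hx, map_one] at h1
    have h2 : ‖w.embedding x‖ ^ 2 = 1 := by exact_mod_cast h1.symm
    have h3 : ‖w.embedding x‖ = 1 := by
      have h4 := norm_nonneg (w.embedding x)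
      nlinarith
    rw [hu, ← InfinitePlace.norm_embedding_eq w x]
    exact h3
  · intro ζ hζ
    rw [Units.mem_torsion] at hζ
    obtain ⟨w⟩ : Nonempty (InfinitePlace K) := inferInstance
    apply w.embedding.injective
    rw [key, map_one, InfinitePlace.norm_embedding_eq, hζ w]
    simp

end Pool.Agent.RB
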